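import Pool.Agent.Helper86.SG.Defs

/-! Package RUL of the project SG (MP_66bcf1_co). -/

set_option autoImplicit false

open Finset

namespace Pool.Agent.Helper63.SG

open SJ (supp IsV dot fib)
open _root_.SG

/-- the vector with support `S` and the signs `p` -/
def vec {n : ℕ} (S : Finset (Fin n)) (p : Fin n → ℤ) : Fin n → ℤ := fun i => if i ∈ S then p i else 0

lemma supp_vec {n : ℕ} (S : Finset (Fin n)) (p : Fin n → ℤ) (hp : ∀ i, p i = 1 ∨ p i = -1) :
    supp (vec S p) = S := by
  ext i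
  unfold supp vec
  rw [mem_filter]
  constructor
  · rintro ⟨-, h⟩
    by_contra h1
    exact h (if_neg h1)
  · intro h
    refine ⟨mem_univ _, ?_⟩
    rw [if_pos h]
    rcases hp i with h1 | h1 <;> rw [h1] <;> norm_num

lemma isV_vec {n k : ℕ} (S : Finset (Fin n)) (hS : #S = k) (p : Fin n → ℤ)
    (hp : ∀ i, p i = 1 ∨ p i = -1) : IsV n k (vec S p) := by
  refine ⟨fun i => ?_, by rw [supp_vec S p hp, hS]⟩
  unfold vec
  split_ifs
  · rcases hp i with h | h
    · exact Or.inr (Or.inr h)
    · exact Or.inl h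
  · exact Or.inr (Or.inl rfl)

lemma key {n k d : ℕ} {F : Finset (Fin n → ℤ)} {S S' : Finset (Fin n)} (hS : #S = k)
    (hS' : #S' = k) (hH : S ∉ HH k d F) (hI : 2 * d + 2 ≤ #(S ∩ S')) {f f' : Fin n}
    {c c' : Fin n → ℤ} (h : Str k d F S f c) (h' : Str k d F S' f' c') (hf : f ∈ S') {z : Fin n}
    (hz : z ∈ S ∩ S') (hzf : z ≠ f) (hc : z = f' ∨ c z ≠ c' z) : False := by
  classical
  obtain ⟨hfS, hc1, hstr⟩ := h
  obtain ⟨hfS', hc1', hstr'⟩ := h'
  obtain ⟨A, hA1, hA2, hA3⟩ := exists_subsuperset_card_eq (s := {f, z}) (t := S ∩ S')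
    (n := 2 * d + 2) (by
      intro x hx
      rw [mem_insert, mem_singleton] at hx
      rcases hx with rfl | rfl
      · exact mem_inter.2 ⟨hfS, hf⟩
      · exact hz) (by
      refine le_trans (card_le_two) ?_
      omega) hI
  have hfA : f ∈ A := hA1 (mem_insert_self _ _)
  have hzA : z ∈ A := hA1 (mem_insert_of_mem (mem_singleton_self _))
  obtain ⟨Q, hQ1, hQ2, hQ3⟩ := exists_subsuperset_card_eq (s := {f}) (t := A.erase z)
    (n := d + 1) (by
      intro x hx
      rw [mem_singleton] at hx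
      subst hx
      exact mem_erase.2 ⟨hzf.symm, hfA⟩) (by rw [card_singleton]; omega) (by
      rw [card_erase_of_mem hzA, hA3]; omega)
  have hfQ : f ∈ Q := hQ1 (mem_singleton_self _)
  have hzQ : z ∉ Q := fun h => (mem_erase.1 (hQ2 h)).1 rfl
  have hQA : Q ⊆ A := fun x hx => (mem_erase.1 (hQ2 hx)).2
  -- the signs
  set p : Fin n → ℤ := fun i => if i ∈ Q then -c' i else c i with hp
  set p' : Fin n → ℤ := fun i => if i ∈ A \ Q then -c i else c' i with hp'
  have hp1 : ∀ i, p i = 1 ∨ p i = -1 := by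
    intro i
    simp only [hp]
    split_ifs
    · rcases hc1' i with h | h <;> rw [h] <;> norm_num
    · exact hc1 i
  have hp1' : ∀ i, p' i = 1 ∨ p' i = -1 := by
    intro i
    simp only [hp']
    split_ifs
    · rcases hc1 i with h | h <;> rw [h] <;> norm_num
    · exact hc1' i
  have hv : vec S p ∈ F := by
    rw [hstr _ (isV_vec S hS p hp1) (supp_vec S p hp1)]
    have h1 : (S.erase f).filter (fun i => vec S p i ≠ c i) ⊆ Q.erase f := by
      intro i hi
      rw [mem_filter, mem_erase] at hi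
      refine mem_erase.2 ⟨hi.1.1, ?_⟩
      by_contra h2
      apply hi.2
      unfold vec
      rw [if_pos hi.1.2]
      simp only [hp]
      rw [if_neg h2]
    refine le_trans (card_le_card h1) ?_
    rw [card_erase_of_mem hfQ, hQ3]
    omega
  have hv' : vec S' p' ∈ F := by
    rw [hstr' _ (isV_vec S' hS' p' hp1') (supp_vec S' p' hp1')]
    have h1 : (S'.erase f').filter (fun i => vec S' p' i ≠ c' i) ⊆ (A \ Q).erase z := by
      intro i hi
      rw [mem_filter, mem_erase] at hi
      obtain ⟨⟨hi1, hi2⟩, hi3⟩ := hi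
      unfold vec at hi3
      rw [if_pos hi2] at hi3
      simp only [hp'] at hi3
      by_cases h2 : i ∈ A \ Q
      · refine mem_erase.2 ⟨?_, h2⟩
        rintro rfl
        rcases hc with h3 | h3
        · exact hi1 h3
        · rw [if_pos h2] at hi3
          rcases hc1 i with h4 | h4 <;> rcases hc1' i with h5 | h5
          · exact h3 (h4.trans h5.symm)
          · exact hi3 (by omega)
          · exact hi3 (by omega)
          · exact h3 (h4.trans h5.symm)
      · rw [if_neg h2] at hi3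
        exact absurd rfl hi3
    refine le_trans (card_le_card h1) ?_
    rw [card_erase_of_mem (mem_sdiff.2 ⟨hzA, hzQ⟩), card_sdiff_of_subset hQA, hA3, hQ3]
    omega
  apply hH
  unfold HH
  rw [mem_filter]
  refine ⟨mem_powersetCard.2 ⟨subset_univ _, hS⟩, vec S p, hv, supp_vec S p hp1, A, hA3, ?_,
    vec S' p', hv', ?_⟩
  · rw [supp_vec S p hp1]
    exact fun x hx => (mem_inter.1 (hA2 hx)).1
  · intro x hx
    have h1 := mem_inter.1 (hA2 hx)
    unfold vec
    rw [if_pos h1.1, if_pos h1.2]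
    simp only [hp, hp']
    by_cases h2 : x ∈ Q
    · rw [if_pos h2, if_neg fun h => (mem_sdiff.1 h).2 h2, neg_neg]
    · rw [if_neg h2, if_pos (mem_sdiff.2 ⟨hx, h2⟩)]

theorem rul : RULStm := by
  intro n k d F hk hF S S' hS hS' hH hI f f' c c' h h'
  refine ⟨fun hf hf' => ?_, ?_⟩
  · by_contra hne
    exact key hS hS' hH hI h h' hf (z := f') (mem_inter.2 ⟨hf', h'.1⟩) (Ne.symm hne) (Or.inl rfl)
  · rintro rfl y hy hyf
    by_contra hne
    exact key hS hS' hH hI h h' h'.1 hy hyf (Or.inr hne)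

end Pool.Agent.Helper63.SG
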